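import Mathlib

/-!
# Prefix-closed normal forms with the `log n`-fellow traveller property for Sol lattices

Let `M ∈ GL(2, ℤ)` have two real eigenvalues different from `±1`.  The words `t^k x^a y^b` form
a prefix-closed normal form of `G_M = ℤ² ⋊_M ℤ`.  Multiplication by `x` or `y` moves it by a
bounded amount, and multiplication by `t` by at most the word length of vectors of norm at most
`n`, which is `O(log n)`: with `N = M²` and `T_j = tr N^j` one has `T_j v = N^j v + N^(-j) v`,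
and every integer has an expansion in the numbers `T_j` with bounded digits.
-/

namespace Pool.Agent.Results.MP_df87fb_al.SolLogFellow

open Filter

section defs

variable {G : Type} [Group G] {m : ℕ}

/-- The element of `G` represented by a letter of `S = X ∪ X⁻¹`
(`(i, true)` is `x_i` and `(i, false)` its formal inverse). -/
def letter (X : Fin m → G) (p : Fin m × Bool) : G := if p.2 then X p.1 else (X p.1)⁻¹

/-- The evaluation map `π : S^* → G`. -/
def ev (X : Fin m → G) (w : List (Fin m × Bool)) : G := (w.map (letter X)).prod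

/-- The word metric `d_X`. -/
noncomputable def dX (X : Fin m → G) (g h : G) : ℕ :=
  sInf {n : ℕ | ∃ w : List (Fin m × Bool), w.length = n ∧ g * ev X w = h}

/-- `L` is a normal form: `π` restricts to a bijection of `L` onto `G`. -/
def IsNormalForm (X : Fin m → G) (L : Set (List (Fin m × Bool))) : Prop :=
  Set.BijOn (ev X) L Set.univ

/-- The function `s_L`. -/
noncomputable def sL (X : Fin m → G) (L : Set (List (Fin m × Bool))) (n : ℕ) : ℕ :=
  sSup {d : ℕ | ∃ t ≤ n, ∃ w₁ ∈ L, ∃ w₂ ∈ L, ∃ i : Fin m, ev X w₁ * X i = ev X w₂ ∧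
    d = dX X (ev X (w₁.take t)) (ev X (w₂.take t))}

/-- `h ⪯ f`. -/
def Preceq (h f : ℕ → ℝ) : Prop :=
  ∃ K M : ℕ, 0 < K ∧ 0 < M ∧ ∀ᶠ n : ℕ in atTop, h n ≤ K * f (M * n)

/-- `h ≪ f`. -/
def Ll (h f : ℕ → ℝ) : Prop :=
  ∃ t : ℕ → ℝ, (∀ n, 0 ≤ t n) ∧ Monotone t ∧ ¬ BddAbove (Set.range t) ∧
    Preceq (fun n => h n * t n) f

/-- The `f(n)`-fellow traveler property, for `f` nondecreasing and nonnegative with
`f ≪ 𝔦`. -/
def FellowTraveler (X : Fin m → G) (L : Set (List (Fin m × Bool))) (f : ℕ → ℝ) : Prop :=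
  (∀ n, 0 ≤ f n) ∧ Monotone f ∧ Ll f (fun n => n) ∧ Preceq (fun n => sL X L n) f

/-- `L` is quasiregular. -/
def Quasiregular (L : Set (List (Fin m × Bool))) : Prop :=
  ∃ c : ℕ, ∀ w ∈ L, ∀ u, u <+: w → ∃ v : List (Fin m × Bool), v.length ≤ c ∧ u ++ v ∈ L

/-- `L` is closed under taking prefixes. -/
def PrefixClosed (L : Set (List (Fin m × Bool))) : Prop := ∀ w ∈ L, ∀ u, u <+: w → u ∈ L

end defs

/-- The automorphism of `ℤ²` given by `M`. -/
def act (M : GL (Fin 2) ℤ) : MulAut (Multiplicative (Fin 2 → ℤ)) where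
  toFun v := Multiplicative.ofAdd ((M : Matrix (Fin 2) (Fin 2) ℤ).mulVec (Multiplicative.toAdd v))
  invFun v := Multiplicative.ofAdd
    (((M⁻¹ : GL (Fin 2) ℤ) : Matrix (Fin 2) (Fin 2) ℤ).mulVec (Multiplicative.toAdd v))
  left_inv v := by
    beta_reduce
    rw [toAdd_ofAdd, Matrix.mulVec_mulVec, ← Units.val_mul, inv_mul_cancel, Units.val_one,
      Matrix.one_mulVec, ofAdd_toAdd]
  right_inv v := by
    beta_reduce
    rw [toAdd_ofAdd, Matrix.mulVec_mulVec, ← Units.val_mul, mul_inv_cancel, Units.val_one,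
      Matrix.one_mulVec, ofAdd_toAdd]
  map_mul' v w := by rw [toAdd_mul, Matrix.mulVec_add, ofAdd_add]

/-- The group `G_M = ℤ² ⋊_M ℤ`. -/
abbrev GM (M : GL (Fin 2) ℤ) : Type :=
  Multiplicative (Fin 2 → ℤ) ⋊[zpowersHom (MulAut (Multiplicative (Fin 2 → ℤ))) (act M)]
    Multiplicative ℤ

/-- `M` has two real eigenvalues, neither equal to `±1`. -/
def TwoRealEigenvalues (M : GL (Fin 2) ℤ) : Prop :=
  ∃ a b : ℝ, ((M : Matrix (Fin 2) (Fin 2) ℤ).map (Int.cast : ℤ → ℝ)).charpoly =
    (Polynomial.X - Polynomial.C a) * (Polynomial.X - Polynomial.C b) ∧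
    a ≠ 1 ∧ a ≠ -1 ∧ b ≠ 1 ∧ b ≠ -1

/-! ### Word length -/

section len

variable {G : Type} [Group G] {m : ℕ} (X : Fin m → G)

/-- the word length is at most `n` -/
def Lle (g : G) (n : ℕ) : Prop := ∃ w : List (Fin m × Bool), w.length ≤ n ∧ ev X w = g

theorem ev_append (u v : List (Fin m × Bool)) : ev X (u ++ v) = ev X u * ev X v := by
  simp [ev]

theorem Lle_one : Lle X 1 0 := ⟨[], by simp, rfl⟩

theorem Lle_mul {g h : G} {a b : ℕ} (hg : Lle X g a) (hh : Lle X h b) :
    Lle X (g * h) (a + b) := by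
  obtain ⟨u, hu, rfl⟩ := hg
  obtain ⟨v, hv, rfl⟩ := hh
  exact ⟨u ++ v, by simp; omega, ev_append X u v⟩

theorem Lle_mono {g : G} {a b : ℕ} (hg : Lle X g a) (h : a ≤ b) : Lle X g b := by
  obtain ⟨u, hu, rfl⟩ := hg
  exact ⟨u, hu.trans h, rfl⟩

theorem Lle_inv {g : G} {a : ℕ} (hg : Lle X g a) : Lle X g⁻¹ a := by
  obtain ⟨u, hu, rfl⟩ := hg
  refine ⟨(u.map fun p => (p.1, !p.2)).reverse, by simpa using hu, ?_⟩
  clear hu
  induction u with
  | nil => simp [ev]
  | cons p u ih =>
    rw [List.map_cons, List.reverse_cons, ev_append, ih]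
    have h1 : ev X (p :: u) = letter X p * ev X u := by simp [ev]
    have h2 : ev X [(p.1, !p.2)] = (letter X p)⁻¹ := by
      obtain ⟨i, s⟩ := p
      cases s <;> simp [ev, letter]
    rw [h1, h2, mul_inv_rev]

theorem Lle_gen (i : Fin m) : Lle X (X i) 1 := ⟨[(i, true)], by simp, by simp [ev, letter]⟩

theorem Lle_pow {g : G} {a : ℕ} (hg : Lle X g a) (n : ℕ) : Lle X (g ^ n) (n * a) := by
  induction n with
  | zero => simpa using Lle_one X
  | succ n ih =>
    rw [pow_succ, Nat.succ_mul]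
    exact Lle_mul X ih hg

theorem dX_le {g h : G} {n : ℕ} (hl : Lle X (g⁻¹ * h) n) : dX X g h ≤ n := by
  obtain ⟨w, hw, he⟩ := hl
  have h1 : w.length ∈ {n : ℕ | ∃ w : List (Fin m × Bool), w.length = n ∧ g * ev X w = h} :=
    ⟨w, rfl, by rw [he, mul_inv_cancel_left]⟩
  exact (Nat.sInf_le h1).trans hw

end len

/-! ### Arithmetic of `N = M²` -/

/-- the trace sequence -/
def tr (T : ℤ) : ℕ → ℤ
  | 0 => 2
  | 1 => T
  | n + 2 => T * tr T (n + 1) - tr T n

theorem tr_mono (T : ℤ) (hT : 3 ≤ T) (n : ℕ) : 0 < tr T n ∧ tr T n ≤ tr T (n + 1) := by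
  induction n with
  | zero => simp only [tr]; omega
  | succ n ih =>
    obtain ⟨h1, h2⟩ := ih
    refine ⟨by omega, ?_⟩
    simp only [tr]
    nlinarith

theorem tr_pow (T : ℤ) (hT : 3 ≤ T) (n : ℕ) : (2 : ℤ) ^ n ≤ tr T n ∧
    (2 : ℤ) ^ (n + 1) ≤ tr T (n + 1) := by
  induction n with
  | zero => simp only [tr]; omega
  | succ n ih =>
    obtain ⟨h1, h2⟩ := ih
    refine ⟨h2, ?_⟩
    have h3 := tr_mono T hT n
    have h4 := tr_mono T hT (n + 1)
    have e : tr T (n + 1 + 1) = T * tr T (n + 1) - tr T n := rfl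
    rw [e, pow_succ]
    nlinarith

theorem tr_succ_le (T : ℤ) (hT : 3 ≤ T) (n : ℕ) : tr T (n + 1) ≤ T * tr T n := by
  cases n with
  | zero => simp only [tr]; omega
  | succ n =>
    have h := tr_mono T hT n
    have e : tr T (n + 1 + 1) = T * tr T (n + 1) - tr T n := rfl
    rw [e]
    omega

/-- expansions in the numbers `T_j` with bounded digits -/
theorem greedy (T : ℤ) (hT : 3 ≤ T) (J : ℕ) : ∀ q : ℤ, 0 ≤ q → q < tr T J →
    ∃ (c : ℕ → ℕ) (r : ℕ), (∀ j, (c j : ℤ) ≤ T) ∧ r ≤ 1 ∧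
      q = r + ∑ j ∈ Finset.range J, (c j : ℤ) * tr T j := by
  induction J with
  | zero =>
    intro q h0 h1
    simp only [tr] at h1
    exact ⟨fun _ => 0, q.toNat, fun _ => by simp; omega, by omega, by simp; omega⟩
  | succ J ih =>
    intro q h0 h1
    have hpos := (tr_mono T hT J).1
    obtain ⟨c, r, hc, hr, hq⟩ := ih (q % tr T J) (Int.emod_nonneg _ hpos.ne')
      (Int.emod_lt_of_pos _ hpos)
    have h2 : 0 ≤ q / tr T J := Int.ediv_nonneg h0 hpos.le
    have h3 : q / tr T J < T := by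
      apply Int.ediv_lt_of_lt_mul hpos
      exact h1.trans_le (tr_succ_le T hT J)
    refine ⟨Function.update c J (q / tr T J).toNat, r, ?_, hr, ?_⟩
    · intro j
      by_cases h : j = J
      · subst h
        rw [Function.update_self]
        omega
      · rw [Function.update_of_ne h]
        exact hc j
    · rw [Finset.sum_range_succ, Function.update_self]
      have h4 : ∑ j ∈ Finset.range J,
          ((Function.update c J (q / tr T J).toNat j : ℕ) : ℤ) * tr T j =
          ∑ j ∈ Finset.range J, (c j : ℤ) * tr T j := by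
        apply Finset.sum_congr rfl
        intro j hj
        rw [Function.update_of_ne (Finset.mem_range.1 hj).ne]
      rw [h4, ← add_assoc, ← hq, Int.toNat_of_nonneg h2]
      have := Int.emod_add_mul_ediv q (tr T J)
      linarith

section matrices

variable (M : GL (Fin 2) ℤ)

/-- the matrix of `M²` -/
def P : Matrix (Fin 2) (Fin 2) ℤ := (M : Matrix (Fin 2) (Fin 2) ℤ) * M
/-- the matrix of `M⁻²` -/
def Q : Matrix (Fin 2) (Fin 2) ℤ :=
  ((M⁻¹ : GL (Fin 2) ℤ) : Matrix (Fin 2) (Fin 2) ℤ) * (M⁻¹ : GL (Fin 2) ℤ)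

theorem PQ : P M * Q M = 1 := by
  unfold P Q
  rw [← Units.val_mul, ← Units.val_mul, ← Units.val_mul]
  have : M * M * (M⁻¹ * M⁻¹) = 1 := by group
  rw [this, Units.val_one]

theorem QP : Q M * P M = 1 := by
  unfold P Q
  rw [← Units.val_mul, ← Units.val_mul, ← Units.val_mul]
  have : M⁻¹ * M⁻¹ * (M * M) = 1 := by group
  rw [this, Units.val_one]

theorem det_sq : (M : Matrix (Fin 2) (Fin 2) ℤ).det * (M : Matrix (Fin 2) (Fin 2) ℤ).det = 1 := by
  have h : IsUnit (M : Matrix (Fin 2) (Fin 2) ℤ).det := (Matrix.isUnit_iff_isUnit_det _).1 M.isUnit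
  rcases Int.isUnit_iff.1 h with h | h <;> rw [h] <;> norm_num

theorem det_P : (P M).det = 1 := by
  rw [P, Matrix.det_mul, det_sq]

theorem P_add_Q : P M + Q M = (P M).trace • (1 : Matrix (Fin 2) (Fin 2) ℤ) := by
  have h1 : P M * (P M).adjugate = 1 := by
    rw [Matrix.mul_adjugate, det_P, one_smul]
  have h2 : Q M = (P M).adjugate := by
    calc Q M = Q M * (P M * (P M).adjugate) := by rw [h1, mul_one]
      _ = (P M).adjugate := by rw [← mul_assoc, QP, one_mul]
  rw [h2, Matrix.adjugate_fin_two]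
  ext i j
  fin_cases i <;> fin_cases j <;> simp [Matrix.trace_fin_two, add_comm]

theorem trace_ge (hM : TwoRealEigenvalues M) : 3 ≤ (P M).trace := by
  obtain ⟨a, b, h, ha1, ha2, hb1, hb2⟩ := hM
  set A := (M : Matrix (Fin 2) (Fin 2) ℤ) with hA
  have h0 := congrArg (Polynomial.eval 0) h
  have h1 := congrArg (Polynomial.eval 1) h
  rw [Matrix.charpoly_fin_two] at h0 h1
  simp [Matrix.trace_fin_two, Matrix.det_fin_two] at h0 h1
  have hd := det_sq M
  rw [← hA, Matrix.det_fin_two] at hd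
  have hd' : ((A 0 0 : ℝ) * A 1 1 - A 0 1 * A 1 0) * ((A 0 0 : ℝ) * A 1 1 - A 0 1 * A 1 0) = 1 := by
    exact_mod_cast hd
  have hT : (P M).trace = (A 0 0 + A 1 1) * (A 0 0 + A 1 1) -
      2 * (A 0 0 * A 1 1 - A 0 1 * A 1 0) := by
    simp only [P, Matrix.trace_fin_two, Matrix.mul_apply, Fin.sum_univ_two, ← hA]
    ring
  have hT' : ((P M).trace : ℝ) = a * a + b * b := by
    rw [hT]
    push_cast
    have e1 : (A 0 0 : ℝ) + A 1 1 = a + b := by nlinarith
    rw [e1]
    nlinarith
  have hab : (a * b) * (a * b) = 1 := by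
    rw [h0] at hd'
    exact hd'
  have ha : a * a ≠ 1 := by
    intro h
    rcases mul_self_eq_one_iff.1 h with h | h
    · exact ha1 h
    · exact ha2 h
  have hpos : 0 < a * a := by
    rcases (mul_self_nonneg a).lt_or_eq with h | h
    · exact h
    · exfalso
      have : a * b * (a * b) = (a * a) * (b * b) := by ring
      rw [this, ← h, zero_mul] at hab
      exact zero_ne_one hab
  have hgt : (2 : ℝ) < a * a + b * b := by
    have h2 : (a * a) * (b * b) = 1 := by
      rw [← hab]; ring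
    have h3 : 0 < (a * a - 1) ^ 2 := by
      have : a * a - 1 ≠ 0 := sub_ne_zero.2 ha
      positivity
    by_contra hcon
    push Not at hcon
    nlinarith
  rw [← hT'] at hgt
  have : (2 : ℤ) < (P M).trace := by exact_mod_cast hgt
  omega

theorem tr_smul (j : ℕ) :
    P M ^ j + Q M ^ j = (tr (P M).trace j) • (1 : Matrix (Fin 2) (Fin 2) ℤ) := by
  have key : ∀ j : ℕ, P M ^ j + Q M ^ j = (tr (P M).trace j) • (1 : Matrix (Fin 2) (Fin 2) ℤ) ∧
      P M ^ (j + 1) + Q M ^ (j + 1) =
        (tr (P M).trace (j + 1)) • (1 : Matrix (Fin 2) (Fin 2) ℤ) := by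
    intro j
    induction j with
    | zero =>
      refine ⟨?_, ?_⟩
      · simp only [pow_zero, tr]
        rw [two_smul]
      · simp only [zero_add, pow_one, tr]
        exact P_add_Q M
    | succ j ih =>
      obtain ⟨h1, h2⟩ := ih
      refine ⟨h2, ?_⟩
      have e : tr (P M).trace (j + 1 + 1) =
        (P M).trace * tr (P M).trace (j + 1) - tr (P M).trace j := rfl
      rw [e, sub_smul, mul_smul, ← h2, ← h1]
      have h3 : (P M).trace • (P M ^ (j + 1) + Q M ^ (j + 1)) =
          (P M + Q M) * (P M ^ (j + 1) + Q M ^ (j + 1)) := by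
        rw [P_add_Q, smul_mul_assoc, one_mul]
      rw [h3, add_mul, mul_add, mul_add]
      have h4 : P M * Q M ^ (j + 1) = Q M ^ j := by
        rw [pow_succ', ← mul_assoc, PQ, one_mul]
      have h5 : Q M * P M ^ (j + 1) = P M ^ j := by
        rw [pow_succ', ← mul_assoc, QP, one_mul]
      rw [h4, h5, pow_succ' (P M) (j + 1), pow_succ' (Q M) (j + 1)]
      abel
  exact (key j).1

end matrices

/-! ### The normal form -/

section nf

variable (M : GL (Fin 2) ℤ)

/-- vectors in `G_M` -/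
def vec (v : Fin 2 → ℤ) : GM M := SemidirectProduct.inl (Multiplicative.ofAdd v)

/-- the stable letter -/
def tt : GM M := SemidirectProduct.inr (Multiplicative.ofAdd 1)

/-- the generators `x`, `y`, `t` -/
def gens : Fin 3 → GM M := ![vec M ![1, 0], vec M ![0, 1], tt M]

theorem vec_add (v w : Fin 2 → ℤ) : vec M (v + w) = vec M v * vec M w := by
  rw [vec, ofAdd_add, map_mul]; rfl

theorem vec_zero : vec M 0 = 1 := by
  rw [vec, ofAdd_zero, map_one]

theorem vec_neg (v : Fin 2 → ℤ) : vec M (-v) = (vec M v)⁻¹ := by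
  rw [vec, ofAdd_neg, map_inv]; rfl

theorem vec_zsmul (n : ℤ) (v : Fin 2 → ℤ) : vec M (n • v) = (vec M v) ^ n := by
  rw [vec, ofAdd_zsmul, map_zpow]; rfl

theorem vec_inj (v w : Fin 2 → ℤ) (h : vec M v = vec M w) : v = w :=
  Multiplicative.ofAdd.injective (SemidirectProduct.inl_injective h)

theorem conj_t (v : Fin 2 → ℤ) :
    tt M * vec M v * (tt M)⁻¹ = vec M ((M : Matrix (Fin 2) (Fin 2) ℤ).mulVec v) := by
  rw [tt, ← map_inv, vec, ← SemidirectProduct.inl_aut]
  rfl

theorem conj_t_inv (v : Fin 2 → ℤ) : (tt M)⁻¹ * vec M v * tt M =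
    vec M (((M⁻¹ : GL (Fin 2) ℤ) : Matrix (Fin 2) (Fin 2) ℤ).mulVec v) := by
  have h := conj_t M (((M⁻¹ : GL (Fin 2) ℤ) : Matrix (Fin 2) (Fin 2) ℤ).mulVec v)
  rw [Matrix.mulVec_mulVec, ← Units.val_mul, mul_inv_cancel, Units.val_one,
    Matrix.one_mulVec] at h
  rw [← h]
  group

theorem conj_P (v : Fin 2 → ℤ) :
    tt M ^ 2 * vec M v * (tt M ^ 2)⁻¹ = vec M ((P M).mulVec v) := by
  rw [P, ← Matrix.mulVec_mulVec, ← conj_t, ← conj_t]
  simp only [pow_two, mul_inv_rev, mul_assoc]

theorem conj_Q (v : Fin 2 → ℤ) :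
    (tt M ^ 2)⁻¹ * vec M v * tt M ^ 2 = vec M ((Q M).mulVec v) := by
  rw [Q, ← Matrix.mulVec_mulVec, ← conj_t_inv, ← conj_t_inv]
  simp only [pow_two, mul_inv_rev, mul_assoc]

theorem Lle_P {v : Fin 2 → ℤ} {n : ℕ} (h : Lle (gens M) (vec M v) n) :
    Lle (gens M) (vec M ((P M).mulVec v)) (n + 4) := by
  rw [← conj_P]
  have ht : Lle (gens M) (tt M ^ 2) 2 := by
    have := Lle_pow (gens M) (Lle_gen (gens M) 2) 2
    exact this
  have := Lle_mul _ (Lle_mul _ ht h) (Lle_inv _ ht)
  exact Lle_mono _ this (by omega)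

theorem Lle_Q {v : Fin 2 → ℤ} {n : ℕ} (h : Lle (gens M) (vec M v) n) :
    Lle (gens M) (vec M ((Q M).mulVec v)) (n + 4) := by
  rw [← conj_Q]
  have ht : Lle (gens M) (tt M ^ 2) 2 := by
    have := Lle_pow (gens M) (Lle_gen (gens M) 2) 2
    exact this
  have := Lle_mul _ (Lle_mul _ (Lle_inv _ ht) h) ht
  exact Lle_mono _ this (by omega)

/-- Horner's scheme -/
theorem horner (A : Matrix (Fin 2) (Fin 2) ℤ)
    (hA : ∀ (v : Fin 2 → ℤ) (n : ℕ), Lle (gens M) (vec M v) n →
      Lle (gens M) (vec M (A.mulVec v)) (n + 4)) (T : ℕ) (e : Fin 2 → ℤ)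
    (he : Lle (gens M) (vec M e) 1) (J : ℕ) : ∀ c : ℕ → ℕ, (∀ j, c j ≤ T) →
    Lle (gens M) (vec M (∑ j ∈ Finset.range J, (c j : ℤ) • (A ^ j).mulVec e)) (J * (T + 4)) := by
  induction J with
  | zero =>
    intro c _
    rw [Finset.range_zero, Finset.sum_empty, vec_zero]
    exact Lle_mono _ (Lle_one _) (Nat.zero_le _)
  | succ J ih =>
    intro c hc
    rw [Finset.sum_range_succ']
    have h1 : ∑ j ∈ Finset.range J, (c (j + 1) : ℤ) • (A ^ (j + 1)).mulVec e =
        A.mulVec (∑ j ∈ Finset.range J, (c (j + 1) : ℤ) • (A ^ j).mulVec e) := by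
      rw [Matrix.mulVec_sum]
      apply Finset.sum_congr rfl
      intro j _
      rw [Matrix.mulVec_smul, Matrix.mulVec_mulVec, pow_succ']
    rw [h1, vec_add, pow_zero, Matrix.one_mulVec, vec_zsmul, zpow_natCast]
    have h2 := hA _ _ (ih (fun j => c (j + 1)) (fun j => hc (j + 1)))
    have h3 := Lle_mul _ h2 (Lle_pow _ he (c 0))
    refine Lle_mono _ h3 ?_
    have := hc 0
    nlinarith

/-- vectors on the axes have logarithmic word length -/
theorem log_len (hM : TwoRealEigenvalues M) (e : Fin 2 → ℤ) (he : Lle (gens M) (vec M e) 1)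
    (J : ℕ) (q : ℤ) (hq : q.natAbs < 2 ^ J) :
    Lle (gens M) (vec M (q • e)) (1 + 2 * (J * ((P M).trace.toNat + 4))) := by
  have hT := trace_ge M hM
  have key : ∀ q : ℤ, 0 ≤ q → q < 2 ^ J →
      Lle (gens M) (vec M (q • e)) (1 + 2 * (J * ((P M).trace.toNat + 4))) := by
    intro q h0 h1
    obtain ⟨c, r, hc, hr, hqe⟩ := greedy _ hT J q h0 (h1.trans_le (tr_pow _ hT J).1)
    have h2 : q • e = (r : ℤ) • e + ∑ j ∈ Finset.range J, (c j : ℤ) • (P M ^ j).mulVec e +
        ∑ j ∈ Finset.range J, (c j : ℤ) • (Q M ^ j).mulVec e := by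
      rw [add_assoc, ← Finset.sum_add_distrib, hqe, add_smul, Finset.sum_smul]
      congr 1
      apply Finset.sum_congr rfl
      intro j _
      rw [← smul_add, ← Matrix.add_mulVec, tr_smul M j, Matrix.smul_mulVec,
        Matrix.one_mulVec, smul_smul]
    have hc' : ∀ j, c j ≤ (P M).trace.toNat := fun j => by
      have := hc j
      omega
    rw [h2, vec_add, vec_add, vec_zsmul, zpow_natCast]
    have h3 := horner M (P M) (fun v n h => Lle_P M h) _ e he J c hc'
    have h4 := horner M (Q M) (fun v n h => Lle_Q M h) _ e he J c hc'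
    have h5 := Lle_mul _ (Lle_mul _ (Lle_pow _ he r) h3) h4
    exact Lle_mono _ h5 (by omega)
  rcases le_total 0 q with h | h
  · apply key q h
    have : (q.natAbs : ℤ) < 2 ^ J := by exact_mod_cast hq
    omega
  · have h1 : (q.natAbs : ℤ) < 2 ^ J := by exact_mod_cast hq
    have h2 := key (-q) (by omega) (by omega)
    have h3 := Lle_inv _ h2
    rw [← vec_neg, neg_smul, neg_neg] at h3
    exact h3

/-- the power word `x_i^n` -/
def pw (i : Fin 3) (n : ℤ) : List (Fin 3 × Bool) := List.replicate n.natAbs (i, decide (0 ≤ n))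

theorem ev_pw (i : Fin 3) (n : ℤ) : ev (gens M) (pw i n) = gens M i ^ n := by
  unfold ev pw
  rw [List.map_replicate, List.prod_replicate]
  by_cases h : 0 ≤ n
  · obtain ⟨k, rfl⟩ := Int.eq_ofNat_of_zero_le h
    simp [letter]
  · have h1 : n = -(n.natAbs : ℤ) := by omega
    have h2 : decide (0 ≤ n) = false := decide_eq_false h
    rw [h2]
    nth_rewrite 2 [h1]
    rw [zpow_neg, zpow_natCast, ← inv_pow]
    rfl

/-- clamping -/
def cl (t : ℕ) (n : ℤ) : ℤ := max (-(t : ℤ)) (min (t : ℤ) n)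

theorem take_pw (i : Fin 3) (n : ℤ) (t : ℕ) : (pw i n).take t = pw i (cl t n) := by
  unfold pw
  rw [List.take_replicate]
  have h1 : min t n.natAbs = (cl t n).natAbs := by unfold cl; omega
  rw [h1]
  by_cases h : (cl t n).natAbs = 0
  · rw [h]; rfl
  · congr 2
    have : (0 ≤ n) ↔ (0 ≤ cl t n) := by unfold cl at *; omega
    simp only [this]

/-- the normal form `t^k x^a y^b` -/
def nf (k a b : ℤ) : List (Fin 3 × Bool) := pw 2 k ++ (pw 0 a ++ pw 1 b)

/-- the language -/
def LL : Set (List (Fin 3 × Bool)) := {w | ∃ k a b : ℤ, w = nf k a b}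

theorem pw_length (i : Fin 3) (n : ℤ) : (pw i n).length = n.natAbs := by simp [pw]

theorem take_nf (k a b : ℤ) (t : ℕ) : (nf k a b).take t =
    nf (cl t k) (cl (t - k.natAbs) a) (cl (t - k.natAbs - a.natAbs) b) := by
  unfold nf
  rw [List.take_append, List.take_append, pw_length, pw_length, take_pw, take_pw, take_pw]

theorem ev_nf (k a b : ℤ) : ev (gens M) (nf k a b) = tt M ^ k * vec M ![a, b] := by
  unfold nf
  rw [ev_append, ev_append, ev_pw, ev_pw, ev_pw]
  have h0 : gens M 0 = vec M ![1, 0] := rfl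
  have h1 : gens M 1 = vec M ![0, 1] := rfl
  have h2 : gens M 2 = tt M := rfl
  rw [h0, h1, h2, ← vec_zsmul, ← vec_zsmul, ← vec_add]
  congr 2
  ext i
  fin_cases i <;> simp

theorem tt_zpow (k : ℤ) : tt M ^ k = SemidirectProduct.inr (Multiplicative.ofAdd k) := by
  rw [tt, ← map_zpow, ← ofAdd_zsmul]
  simp

theorem right_ev (k : ℤ) (v : Fin 2 → ℤ) :
    (tt M ^ k * vec M v).right = Multiplicative.ofAdd k := by
  rw [tt_zpow]
  simp [vec]

theorem normalForm : IsNormalForm (gens M) LL := by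
  refine ⟨fun _ _ => trivial, ?_, ?_⟩
  · rintro _ ⟨k, a, b, rfl⟩ _ ⟨k', a', b', rfl⟩ h
    simp only [ev_nf] at h
    have h1 := congrArg SemidirectProduct.right h
    rw [right_ev, right_ev] at h1
    have h2 : k = k' := Multiplicative.ofAdd.injective h1
    subst h2
    have h3 := vec_inj M _ _ (mul_left_cancel h)
    have h4 := congrFun h3 0
    have h5 := congrFun h3 1
    simp at h4 h5
    rw [h4, h5]
  · intro g _
    have hg : ∃ (k : ℤ) (v : Fin 2 → ℤ), tt M ^ k * vec M v = g := by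
      refine ⟨Multiplicative.toAdd g.right,
        Multiplicative.toAdd ((SemidirectProduct.inr g.right)⁻¹ * g : GM M).left, ?_⟩
      rw [tt_zpow]
      have h1 : (SemidirectProduct.inr g.right : GM M)⁻¹ * g =
          SemidirectProduct.inl ((SemidirectProduct.inr g.right)⁻¹ * g : GM M).left := by
        apply SemidirectProduct.ext
        · simp
        · simp
      have h2 : vec M (Multiplicative.toAdd ((SemidirectProduct.inr g.right)⁻¹ * g : GM M).left) =
          (SemidirectProduct.inr g.right : GM M)⁻¹ * g := by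
        rw [h1]; rfl
      rw [h2, ofAdd_toAdd, mul_inv_cancel_left]
    obtain ⟨k, v, hv⟩ := hg
    refine ⟨nf k (v 0) (v 1), ⟨k, v 0, v 1, rfl⟩, ?_⟩
    rw [ev_nf, ← hv]
    congr 2
    ext i
    fin_cases i <;> rfl

theorem prefixClosed : PrefixClosed LL := by
  rintro _ ⟨k, a, b, rfl⟩ u hu
  rw [List.prefix_iff_eq_take] at hu
  rw [hu, take_nf]
  exact ⟨_, _, _, rfl⟩

/-- word length of arbitrary vectors of norm at most `n` -/
theorem vec_len (hM : TwoRealEigenvalues M) (J : ℕ) (a b : ℤ) (ha : a.natAbs < 2 ^ J)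
    (hb : b.natAbs < 2 ^ J) :
    Lle (gens M) (vec M ![a, b]) (2 + 4 * (J * ((P M).trace.toNat + 4))) := by
  have h0 := log_len M hM ![1, 0] (Lle_gen (gens M) 0) J a ha
  have h1 := log_len M hM ![0, 1] (Lle_gen (gens M) 1) J b hb
  have h2 := Lle_mul _ h0 h1
  rw [← vec_add] at h2
  have h3 : a • ![(1 : ℤ), 0] + b • ![(0 : ℤ), 1] = ![a, b] := by
    ext i
    fin_cases i <;> simp
  rw [h3] at h2
  exact Lle_mono _ h2 (by omega)

theorem small_len (a b : ℤ) : Lle (gens M) (vec M ![a, b]) (a.natAbs + b.natAbs) := by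
  refine ⟨nf 0 a b, ?_, ?_⟩
  · simp [nf, pw_length]
  · rw [ev_nf]; simp

theorem bound (hM : TwoRealEigenvalues M) (n J : ℕ) (hJ : n < 2 ^ J) (t : ℕ) (ht : t ≤ n)
    (w₁ w₂ : List (Fin 3 × Bool)) (h₁ : w₁ ∈ LL) (h₂ : w₂ ∈ LL) (i : Fin 3)
    (h : ev (gens M) w₁ * gens M i = ev (gens M) w₂) :
    dX (gens M) (ev (gens M) (w₁.take t)) (ev (gens M) (w₂.take t)) ≤
      5 + 8 * (J * ((P M).trace.toNat + 4)) := by
  obtain ⟨k, a, b, rfl⟩ := h₁
  obtain ⟨k', a', b', rfl⟩ := h₂
  have h0 : gens M 0 = vec M ![1, 0] := rfl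
  have h1 : gens M 1 = vec M ![0, 1] := rfl
  have h2 : gens M 2 = tt M := rfl
  apply dX_le
  rw [take_nf, take_nf, ev_nf, ev_nf]
  rw [ev_nf, ev_nf] at h
  have hright := congrArg SemidirectProduct.right h
  rw [right_ev, SemidirectProduct.mul_right, right_ev] at hright
  -- multiplication by `x` or `y`
  have hxy : ∀ d e : ℤ, gens M i = vec M ![d, e] → d.natAbs + e.natAbs ≤ 1 →
      Lle (gens M) ((tt M ^ (cl t k) * vec M ![cl (t - k.natAbs) a,
        cl (t - k.natAbs - a.natAbs) b])⁻¹ * (tt M ^ (cl t k') * vec M ![cl (t - k'.natAbs) a',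
        cl (t - k'.natAbs - a'.natAbs) b'])) (5 + 8 * (J * ((P M).trace.toNat + 4))) := by
    intro d e hi hde
    rw [hi] at hright h
    have hk : k = k' := by
      have h3 : (vec M ![d, e]).right = 1 := rfl
      rw [h3, mul_one] at hright
      exact Multiplicative.ofAdd.injective hright
    subst hk
    rw [mul_assoc, ← vec_add] at h
    have h3 := vec_inj M _ _ (mul_left_cancel h)
    have h4 := congrFun h3 0
    have h5 := congrFun h3 1
    simp at h4 h5
    have h6 : ∀ (x : GM M) (v w : Fin 2 → ℤ), (x * vec M v)⁻¹ * (x * vec M w) =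
        vec M (w + -v) := by
      intro x v w
      rw [add_comm, vec_add, vec_neg]
      group
    rw [h6]
    have h7 : ∀ p q p' q' : ℤ, (![p', q'] + -![p, q] : Fin 2 → ℤ) = ![p' - p, q' - q] := by
      intro p q p' q'
      ext i
      fin_cases i <;> simp [sub_eq_add_neg]
    rw [h7]
    refine Lle_mono _ (small_len M _ _) ?_
    have h8 : (cl (t - k.natAbs) a' - cl (t - k.natAbs) a).natAbs ≤ 1 := by
      unfold cl; omega
    have h9 : (cl (t - k.natAbs - a'.natAbs) b' - cl (t - k.natAbs - a.natAbs) b).natAbs ≤ 2 := by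
      unfold cl; omega
    omega
  fin_cases i
  · exact hxy 1 0 rfl (by norm_num)
  · exact hxy 0 1 rfl (by norm_num)
  · -- multiplication by `t`
    have hk : k' = k + 1 := by
      have h3 : (gens M 2).right = Multiplicative.ofAdd 1 := rfl
      change Multiplicative.ofAdd k * (gens M 2).right = _ at hright
      rw [h3, ← ofAdd_add] at hright
      exact (Multiplicative.ofAdd.injective hright).symm
    have hclk : cl t k' = cl t k ∨ cl t k' = cl t k + 1 := by
      rw [hk]; unfold cl; omega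
    have hb : ∀ (s : ℕ) (c : ℤ), s ≤ t → (cl s c).natAbs < 2 ^ J := by
      intro s c hs
      have : (cl s c).natAbs ≤ s := by unfold cl; omega
      omega
    have hv := vec_len M hM J _ _ (hb (t - k.natAbs) a (by omega))
      (hb (t - k.natAbs - a.natAbs) b (by omega))
    have hv' := vec_len M hM J _ _ (hb (t - k'.natAbs) a' (by omega))
      (hb (t - k'.natAbs - a'.natAbs) b' (by omega))
    have ht' : Lle (gens M) ((tt M ^ (cl t k))⁻¹ * tt M ^ (cl t k')) 1 := by
      rcases hclk with h3 | h3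
      · rw [h3, inv_mul_cancel]
        exact Lle_mono _ (Lle_one _) (by omega)
      · rw [h3, zpow_add, inv_mul_cancel_left, zpow_one]
        exact Lle_gen (gens M) 2
    have h4 := Lle_mul _ (Lle_mul _ (Lle_inv _ hv) ht') hv'
    rw [mul_inv_rev]
    have h5 : ∀ A B C D : GM M, A⁻¹ * B⁻¹ * (C * D) = A⁻¹ * (B⁻¹ * C) * D := by
      intro A B C D; group
    rw [h5]
    exact Lle_mono _ h4 (by omega)

theorem sL_le (hM : TwoRealEigenvalues M) (n : ℕ) :
    sL (gens M) LL n ≤ 5 + 8 * ((Nat.log 2 n + 1) * ((P M).trace.toNat + 4)) := by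
  apply csSup_le'
  rintro d ⟨t, ht, w₁, h₁, w₂, h₂, i, h, rfl⟩
  exact bound M hM n (Nat.log 2 n + 1) (Nat.lt_pow_succ_log_self one_lt_two n) t ht w₁ w₂ h₁ h₂ i h

theorem log_monotone : Monotone (fun n : ℕ => Real.log n) := by
  intro m n hmn
  rcases Nat.eq_zero_or_pos m with h | h
  · subst h
    simp only [Nat.cast_zero, Real.log_zero]
    exact Real.log_natCast_nonneg n
  · exact Real.log_le_log (by exact_mod_cast h) (by exact_mod_cast hmn)

theorem log_ll : Ll (fun n : ℕ => Real.log n) (fun n => n) := by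
  refine ⟨fun n => Real.sqrt n, fun n => Real.sqrt_nonneg _, ?_, ?_, 2, 1, by norm_num,
    by norm_num, ?_⟩
  · intro m n hmn
    exact Real.sqrt_le_sqrt (by exact_mod_cast hmn)
  · rintro ⟨C, hC⟩
    obtain ⟨n, hn⟩ := exists_nat_gt (|C| + 1)
    have h1 := hC ⟨n * n, rfl⟩
    simp only [Nat.cast_mul] at h1
    rw [Real.sqrt_mul_self (by positivity)] at h1
    have := le_abs_self C
    linarith
  · filter_upwards [eventually_ge_atTop 1] with n hn
    have h0 : (0 : ℝ) < n := by exact_mod_cast hn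
    have h1 : Real.log n ≤ 2 * Real.sqrt n := by
      have h2 : Real.log (Real.sqrt n) ≤ Real.sqrt n - 1 :=
        Real.log_le_sub_one_of_pos (Real.sqrt_pos.2 h0)
      have h3 : Real.log (Real.sqrt n) = Real.log n / 2 := Real.log_sqrt h0.le
      rw [h3] at h2
      linarith
    have h4 : Real.sqrt n * Real.sqrt n = n := Real.mul_self_sqrt h0.le
    have h5 := Real.sqrt_nonneg (n : ℝ)
    push_cast
    rw [one_mul]
    nlinarith

/-- For every `M ∈ GL(2, ℤ)` with two real eigenvalues, neither equal to `±1`, the group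
`G_M = ℤ² ⋊_M ℤ` has a finite generating set `X` and a prefix-closed, hence quasiregular, normal
form with the `log(n)`-fellow traveler property. -/
theorem result (M : GL (Fin 2) ℤ) (hM : TwoRealEigenvalues M) :
    ∃ (X : Fin 3 → GM M) (L : Set (List (Fin 3 × Bool))),
      Subgroup.closure (Set.range X) = ⊤ ∧ IsNormalForm X L ∧ PrefixClosed L ∧ Quasiregular L ∧
      FellowTraveler X L (fun n => Real.log n) := by
  refine ⟨gens M, LL, ?_, normalForm M, prefixClosed, ⟨0, ?_⟩, ?_⟩
  · rw [eq_top_iff]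
    intro g _
    obtain ⟨w, -, rfl⟩ := (normalForm M).2.2 (Set.mem_univ g)
    apply Subgroup.list_prod_mem
    intro x hx
    obtain ⟨⟨i, s⟩, -, rfl⟩ := List.mem_map.1 hx
    have h := Subgroup.subset_closure (Set.mem_range_self (f := gens M) i)
    cases s
    · exact Subgroup.inv_mem _ h
    · exact h
  · intro w hw u hu
    exact ⟨[], by simp, by simpa using prefixClosed w hw u hu⟩
  · refine ⟨fun n => Real.log_natCast_nonneg n, log_monotone, log_ll, ?_⟩
    set T := (P M).trace.toNat + 4 with hT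
    refine ⟨5 + 24 * T, 1, by omega, by norm_num, ?_⟩
    filter_upwards [eventually_ge_atTop 3] with n hn
    have h1 : ((sL (gens M) LL n : ℕ) : ℝ) ≤ 5 + 8 * (((Nat.log 2 n : ℕ) : ℝ) + 1) * T := by
      have := sL_le M hM n
      rw [← hT] at this
      have h2 : ((sL (gens M) LL n : ℕ) : ℝ) ≤ ((5 + 8 * ((Nat.log 2 n + 1) * T) : ℕ) : ℝ) := by
        exact_mod_cast this
      refine h2.trans (le_of_eq ?_)
      push_cast
      ring
    have hlog1 : 1 ≤ Real.log n := by
      have h3 : Real.exp 1 ≤ n := by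
        have h4 : (3 : ℝ) ≤ n := by exact_mod_cast hn
        have := Real.exp_one_lt_d9
        linarith
      have := Real.log_le_log (Real.exp_pos 1) h3
      rwa [Real.log_exp] at this
    have hlog2 : ((Nat.log 2 n : ℕ) : ℝ) ≤ 2 * Real.log n := by
      have h3 : ((2 : ℝ)) ^ (Nat.log 2 n) ≤ n := by
        have := Nat.pow_log_le_self 2 (x := n) (by omega)
        exact_mod_cast this
      have h4 := Real.log_le_log (by positivity) h3
      rw [Real.log_pow] at h4
      have h5 : (1 : ℝ) / 2 ≤ Real.log 2 := by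
        have := Real.log_two_gt_d9
        linarith
      have h6 : (0 : ℝ) ≤ (Nat.log 2 n : ℕ) := by positivity
      nlinarith
    push_cast
    rw [one_mul]
    have hT0 : (0 : ℝ) ≤ T := by positivity
    nlinarith [mul_nonneg hT0 (by linarith : (0 : ℝ) ≤ Real.log n - 1),
      mul_nonneg hT0 (by linarith : (0 : ℝ) ≤ 2 * Real.log n - (Nat.log 2 n : ℕ))]

end nf

end Pool.Agent.Results.MP_df87fb_al.SolLogFellow
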